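import Pool.Agent.Helper6.RQ.Par
import Pool.Agent.Helper99.NK.Final
import Pool.Agent.Helper74.RT.Main

/-!
# NK / RQ: the final theorem, with the size of the constants (after helper99's `final`) and helper74's `most_once`
-/

set_option autoImplicit false

namespace Pool.Agent.Helper6.RQ

open Finset Pool.Agent.Helper19.NF Pool.Agent.Helper74.NW Pool.Agent.Helper99.NQ Pool.Agent.Helper43.NK
open Pool.Agent.Helper19.NF (PProg)
open Pool.Agent.Helper74.RQ (Rare level level_ends rare_of_length)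
open Pool.Agent.Helper27.RQ (Spread)
open Pool.Agent.Helper99.NK (card_mono times count_eq_times)

theorem final (F : Type) [Field F] [Fintype F] (δ : ℝ) (hδ : 0 < δ) : ∃ c : ℕ, ∀ r : ℕ,
    ∃ (C D M m : ℕ) (_ : NeZero m), D * m ≤ 2 ^ (c * (r + 1)) ∧ C ≤ 2 ^ (2 ^ (c * (r + 1))) ∧ 1 < D ∧ 1 < M ∧
      ∀ a : ℕ, 1 ≤ a →
      ∃ G : Set (Fin D → Equiv.Perm (Fin (M * a))),
      2 ^ (M * a) * Nat.card {g // g ∉ G} ≤ Nat.card (Fin D → Equiv.Perm (Fin (M * a))) ∧ ∀ g ∈ G,
      ∀ (B : Type) [AddCommGroup B] [Module F B] [Fintype B] (x0 : Fin (M * a) × Fin m → B),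
      Function.Injective x0 → ∀ (R k N : ℕ) (q E : ℝ) (f : (B × Word D m B → F) → F),
      1 ≤ R → R ≤ a → k = Nat.card B → C * (a * R) ^ 2 ≤ k → N = Nat.card (B × Word D m B) → q = Nat.card F →
      E = C * ((a * R) ^ 2 / k + 1 / √k) + 1 / 2 ^ a → f = out g x0 (R + 1) →
      N = k ^ (D * m + 1) ∧
      (∀ y, (1 / q - E) * Nat.card (B × Word D m B → F) ≤ Nat.card {I // f I = y}) ∧
      (∀ (S : ℕ) (P : NProg (B × Word D m B) F F S), (∀ I l z, P.Ends I l z → z = f I) →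
        (S ≤ 2 ^ a → (S ≤ 2 ^ R ∨ ∀ I l z, P.Ends I l z → l.length ≤ 2 ^ R) →
          (Nat.card {I : B × Word D m B → F // (∃ l z, P.Ends I l z) ∧
            ∀ l z, P.Ends I l z → (1 / q + δ) * N ≤ Nat.card {x // times l x ≤ r}} : ℝ) ≤
            E * Nat.card (B × Word D m B → F)) ∧
        (∀ L : ℕ, L ≤ (1 - 1 / q - δ) * (r + 1) * N → L ≤ 2 ^ R → S * (L + 1) ≤ 2 ^ a →
          (Nat.card {I : B × Word D m B → F // ∃ l z, P.Ends I l z ∧ l.length ≤ L} : ℝ) ≤
            E * Nat.card (B × Word D m B → F))) ∧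
      (∀ (b : ℕ) (Q Γ : Type) (_ : Finite Q) (P : NPProg (B × Word D m B) F F Q Γ),
        (∀ I l j z, P.Ends I l j z → z = f I) →
        ((2 * Nat.card Q ^ 2 + 2) ^ (b + 2) ≤ 2 ^ R →
          (Nat.card {I : B × Word D m B → F // (∃ l j z, P.Ends I l j z ∧ j ≤ 2 ^ b) ∧
            ∀ l j z, P.Ends I l j z → (1 / q + δ) * N ≤ Nat.card {x // times l x ≤ r}} : ℝ) ≤
            E * Nat.card (B × Word D m B → F)) ∧
        (∀ L : ℕ, L ≤ (1 - 1 / q - δ) * (r + 1) * N → L + 1 ≤ 2 ^ R →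
          (2 * Nat.card Q ^ 2 + 2) ^ (b + 2) * (L + 2) ≤ 2 ^ a →
          (Nat.card {I : B × Word D m B → F // ∃ l j z, P.Ends I l j z ∧ j ≤ 2 ^ b ∧ l.length ≤ L} : ℝ) ≤
            E * Nat.card (B × Word D m B → F))) ∧
      (∃ (Q Γ : Type) (_ : Finite Q) (_ : Finite Γ) (P : PProg (B × Word D m B) F F Q Γ),
        Nat.card Q ≤ N ^ 3 ∧ Nat.card Γ ≤ N ∧
        ∀ I, P.Outputs I (f I) ∧ (Nat.card {x // P.Asks I x} : ℝ) ≤ N / √k) := by
  classical
  have hq2 : 2 ≤ Fintype.card F := Fintype.one_lt_card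
  have hqR : (2 : ℝ) ≤ (Fintype.card F : ℝ) := by exact_mod_cast hq2
  have hq1 : (1 : ℝ) / Fintype.card F ≤ 1 / 2 := one_div_le_one_div_of_le (by norm_num) hqR
  obtain ⟨δ0, hδ0⟩ : ∃ δ0 : ℝ, δ0 = min δ (1 - 1 / (Fintype.card F : ℝ)) := ⟨_, rfl⟩
  have hδ0δ : δ0 ≤ δ := by rw [hδ0]; exact min_le_left _ _
  have hδ01 : δ0 ≤ 1 - 1 / (Fintype.card F : ℝ) := by rw [hδ0]; exact min_le_right _ _
  have hδ0p : 0 < δ0 := by
    rw [hδ0]
    exact lt_min hδ (by linarith)
  obtain ⟨c, hrb⟩ := rare_bound (F := F) δ0 hδ0p hδ01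
  refine ⟨c, fun r => ?_⟩
  obtain ⟨C, D, M, m, W, hmz, hs1, hs2, h9, hD1, hM1, hCM, hCD, hC16, hall⟩ := hrb r
  refine ⟨C, D, M, m, hmz, hs1, hs2, hD1, hM1, fun a ha => ?_⟩
  obtain ⟨hmost, hg⟩ := hall a ha
  refine ⟨{g | Spread D (M * a) W a g}, hmost, fun g hgG B _ _ _ x0 hx0 R k N q E f hR hRa hk hCk hN hq hE hf => ?_⟩
  have hk' : k = Fintype.card B := by rw [hk, Nat.card_eq_fintype_card]
  have hN' : N = Fintype.card (B × Word D m B) := by rw [hN, Nat.card_eq_fintype_card]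
  have hq' : q = Fintype.card F := by rw [hq, Nat.card_eq_fintype_card]
  have hm0 : 0 < m := NeZero.pos m
  have hMm : 1 ≤ (M * m) ^ 2 := Nat.one_le_pow _ _ (Nat.mul_pos (by omega) hm0)
  have haR : 1 ≤ (a * R) ^ 2 := Nat.one_le_pow _ _ (Nat.mul_pos ha hR)
  have hCk1 : C ≤ k := (Nat.le_mul_of_pos_right _ haR).trans hCk
  have hk9 : 9 ≤ k := by omega
  have hk0 : (0 : ℝ) < k := by exact_mod_cast (by omega : 0 < k)
  have hR2a : R ≤ 2 ^ a := hRa.trans (Nat.lt_two_pow_self).le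
  have c0 : Fin D × Fin m := (⟨0, by omega⟩, 0)
  have hNval : N = k ^ (D * m + 1) := by
    rw [hN', Fintype.card_prod, Fintype.card_fun, Fintype.card_prod, Fintype.card_fin,
      Fintype.card_fin, ← hk', pow_succ, mul_comm]
  have hN0 : 0 < N := by
    rw [hNval]
    positivity
  have hNR : (0 : ℝ) < N := by exact_mod_cast hN0
  have hqp : 0 < 1 / q + δ0 := by
    rw [hq']
    positivity
  have hE' : C * ((a : ℝ) * R) ^ 2 / k + C / √k + 1 / 2 ^ a = E := by
    rw [hE]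
    ring
  obtain ⟨θ, hθ⟩ : ∃ θ : ℕ, θ = ⌈(1 / q + δ0) * N⌉₊ - 1 := ⟨_, rfl⟩
  have hceil : 1 ≤ ⌈(1 / q + δ0) * N⌉₊ := Nat.ceil_pos.2 (by positivity)
  have hθ1 : (1 / q + δ0) * N ≤ θ + 1 := by
    have h1 := Nat.le_ceil ((1 / q + δ0) * (N : ℝ))
    have h2 : ((⌈(1 / q + δ0) * N⌉₊ : ℕ) : ℝ) = θ + 1 := by
      exact_mod_cast (by omega : ⌈(1 / q + δ0) * (N : ℝ)⌉₊ = θ + 1)
    linarith
  have hθ2 : (θ : ℝ) < (1 / q + δ0) * N := by
    have h1 : ¬ (1 / q + δ0) * (N : ℝ) ≤ θ := by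
      intro h2
      have := Nat.ceil_le.2 h2
      omega
    exact not_le.1 h1
  have hθN : θ ≤ N := by
    have h1 : (θ : ℝ) ≤ N := by
      have h2 : (1 / q + δ0) * N ≤ 1 * N := by
        refine mul_le_mul_of_nonneg_right ?_ hNR.le
        rw [hq']
        linarith
      linarith
    exact_mod_cast h1
  -- the bound
  have key : ∀ (S : ℕ) (P : NProg (B × Word D m B) F F S), S ≤ 2 ^ a → (∀ I l z, P.Ends I l z → z = f I) →
      (Nat.card {I // Rare P θ r R I} : ℝ) ≤ E * Nat.card (B × Word D m B → F) := by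
    intro S P hS hP
    have h1 := hg g hgG B x0 hx0 R hR hR2a (by omega) S P hS (by rw [← hf]; exact hP) θ (by rw [← hN', ← hq']; exact hθ1)
      (by rw [← hN']; exact hθN)
    rw [← hk', hE'] at h1
    exact h1
  have hfilter : ∀ l : List (B × Word D m B),
      (univ.filter (fun x => times l x ≤ r)).card = Nat.card {x // times l x ≤ r} := by
    intro l
    rw [Nat.card_eq_fintype_card, Fintype.card_subtype]
  have hrare : ∀ l : List (B × Word D m B), (1 / q + δ) * N ≤ Nat.card {x // times l x ≤ r} →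
      ∃ X : Finset (B × Word D m B), θ + 1 ≤ X.card ∧ ∀ x ∈ X, times l x ≤ r := by
    intro l hl
    refine ⟨univ.filter (fun x => times l x ≤ r), ?_, fun x hx => (mem_filter.1 hx).2⟩
    rw [hfilter]
    have h1 : (θ : ℝ) < Nat.card {x // times l x ≤ r} := by
      have h2 : (1 / q + δ0) * N ≤ (1 / q + δ) * N := mul_le_mul_of_nonneg_right (by linarith) hNR.le
      linarith
    exact_mod_cast h1
  have hlenK : ∀ L : ℕ, L ≤ (1 - 1 / q - δ) * (r + 1) * N → (L + 1) + (r + 1) * θ ≤ (r + 1) * N := by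
    intro L hL
    have h1 : (L : ℝ) + (r + 1) * θ < (r + 1) * N := by
      have h2 : ((r : ℝ) + 1) * θ < (r + 1) * ((1 / q + δ0) * N) := mul_lt_mul_of_pos_left hθ2 (by positivity)
      have h3 : (1 - 1 / q - δ) * (r + 1) * N ≤ (1 - 1 / q - δ0) * (r + 1) * N := by
        refine mul_le_mul_of_nonneg_right ?_ hNR.le
        exact mul_le_mul_of_nonneg_right (by linarith) (by positivity)
      calc (L : ℝ) + (r + 1) * θ < (1 - 1 / q - δ0) * (r + 1) * N + (r + 1) * ((1 / q + δ0) * N) := by linarith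
        _ = (r + 1) * N := by ring
    have h2 : L + (r + 1) * θ < (r + 1) * N := by exact_mod_cast h1
    omega
  have hlevel : ∀ (S : ℕ) (P : NProg (B × Word D m B) F F S), (∀ I l z, P.Ends I l z → z = f I) →
      ∀ L : ℕ, L + (r + 1) * θ ≤ (r + 1) * N → L ≤ 2 ^ R → S * (L + 1) ≤ 2 ^ a →
      (Nat.card {I : B × Word D m B → F // ∃ l z, P.Ends I l z ∧ l.length ≤ L} : ℝ) ≤
        E * Nat.card (B × Word D m B → F) := by
    intro S P hP L hL hLR hSa
    have h1 := key (S * (L + 1)) (level P L) hSa (fun I l z h => hP I l z ((level_ends P L I l z).1 h).1)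
    refine le_trans (card_mono fun I hI => ?_) h1
    obtain ⟨l, z, h2, h3⟩ := hI
    refine ⟨⟨l, z, (level_ends P L I l z).2 ⟨h2, h3⟩⟩, Or.inr fun l z h => ?_, fun l z h => ?_⟩
    · exact (((level_ends P L I l z).1 h).2).trans hLR
    · obtain ⟨X, h5, h6⟩ := rare_of_length l θ r (by
        have h4 := ((level_ends P L I l z).1 h).2
        rw [← hN']
        omega)
      exact ⟨X, h5, fun x hx => h6 x hx⟩
  -- the size of the network
  have hR1 : (1 : ℝ) ≤ R := by exact_mod_cast hR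
  have hnet : (((R : ℝ) + 1 + 1) * ((M * a : ℕ) * m)) ^ 2 ≤ C * (a * R) ^ 2 := by
    calc (((R : ℝ) + 1 + 1) * ((M * a : ℕ) * m)) ^ 2 ≤ (3 * R * ((M * a : ℕ) * m)) ^ 2 := by
          gcongr
          linarith
      _ = ((9 * (M * m) ^ 2 : ℕ) : ℝ) * (a * R) ^ 2 := by
          push_cast
          ring
      _ ≤ C * (a * R) ^ 2 := mul_le_mul_of_nonneg_right (by exact_mod_cast hCM) (by positivity)
  refine ⟨hNval, ?_, ?_, ?_, ?_⟩
  · intro y
    have v0 : Fin (M * a) × Fin m := (⟨0, Nat.mul_pos (by omega) ha⟩, 0)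
    have h1 := Pool.Agent.Helper74.RQ.part_value (F := F) g x0 hx0 (R + 1) c0 v0 y
    rw [hf]
    refine le_trans ?_ h1
    refine mul_le_mul_of_nonneg_right ?_ (Nat.cast_nonneg _)
    rw [← hk', ← hq, ← hE']
    push_cast
    push_cast at hnet
    have h2 : (((R : ℝ) + 1 + 1) * ((M * a) * m)) ^ 2 / k ≤ C * (a * R) ^ 2 / k :=
      div_le_div_of_nonneg_right hnet hk0.le
    have h3 : (0 : ℝ) ≤ C / √k := by positivity
    have h4 : (0 : ℝ) ≤ 1 / 2 ^ a := by positivity
    linarith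
  · intro S P hP
    refine ⟨fun hS hSR => ?_, fun L hL hLR hSa => ?_⟩
    · refine le_trans (card_mono fun I hI => ?_) (key S P hS hP)
      refine ⟨hI.1, ?_, fun l z h => ?_⟩
      · rcases hSR with h | h
        · exact Or.inl h
        · exact Or.inr (h I)
      · obtain ⟨X, h1, h2⟩ := hrare l (hI.2 l z h)
        exact ⟨X, by omega, fun x hx => (count_eq_times _ inferInstance l x).trans_le (h2 x hx)⟩
    · exact hlevel S P hP L (by have := hlenK L hL; omega) hLR hSa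
  · intro b Q Γ hQf P hP
    have : Fintype Q := Fintype.ofFinite Q
    have x1 : B × Word D m B := (0, 0)
    refine ⟨fun hQ => ?_, fun L hL hLR hSa => ?_⟩
    · rw [Nat.card_eq_fintype_card] at hQ
      have h1 := Pool.Agent.Helper58.NK.push_rare' P x1 (r := r) (w := θ) hQ (fun J z => z = f J)
        (E * Nat.card (B × Word D m B → F)) hP ?_
      · refine le_trans (card_mono fun I hI => ?_) h1
        refine ⟨hI.1, fun l j z h => ?_⟩
        obtain ⟨X, h2, h3⟩ := hrare l (hI.2 l j z h)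
        exact ⟨X, h2, fun x hx => (count_eq_times _ inferInstance l x).trans_le (h3 x hx)⟩
      · intro S hS P' hP'
        have hSa : S ≤ 2 ^ a := hS.trans (Nat.pow_le_pow_right (by norm_num) hRa)
        refine le_trans (card_mono fun I hI => ?_) (key S P' hSa hP')
        refine ⟨hI.1, Or.inl hS, fun l z h => ?_⟩
        obtain ⟨X, h2, h3⟩ := hI.2 l z h
        exact ⟨X, h2, fun x hx => ((count_eq_times _ inferInstance l x).trans
          (count_eq_times _ inferInstance l x).symm).trans_le (h3 x hx)⟩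
    · rw [Nat.card_eq_fintype_card] at hSa
      have h1 := Pool.Agent.Helper58.NK.push_len P x1 (T := L) le_rfl (fun J z => z = f J)
        (E * Nat.card (B × Word D m B → F)) hP (b := b) ?_
      · exact h1
      · intro S hS P' hP'
        exact hlevel S P' hP' (L + 1) (hlenK L hL) hLR
          ((Nat.mul_le_mul_right _ hS).trans hSa)
  · have hCkR : (C : ℝ) * (a * R) ^ 2 ≤ k := by exact_mod_cast hCk
    have h1 : ((R : ℝ) + 2) * ((M * a : ℕ) * m) ≤ √k := by
      refine Real.le_sqrt_of_sq_le ?_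
      calc (((R : ℝ) + 2) * ((M * a : ℕ) * m)) ^ 2 = (((R : ℝ) + 1 + 1) * ((M * a : ℕ) * m)) ^ 2 := by ring
        _ ≤ _ := hnet.trans hCkR
    have hk1 : (1 : ℝ) ≤ k := by exact_mod_cast (by omega : 1 ≤ k)
    have hsk : √k ≤ (k : ℝ) := by
      rw [Real.sqrt_le_left (by linarith)]
      nlinarith
    have h2 : (R + 2) * (M * a * m) ≤ k := by
      have h3 : (((R + 2) * (M * a * m) : ℕ) : ℝ) ≤ k := by
        push_cast
        push_cast at h1
        linarith
      exact_mod_cast h3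
    obtain ⟨Q, Γ, hQ, hΓ, P, h3, h4, h5⟩ := Pool.Agent.Helper60.NK.upper_out (F := F) (B := B) g x0 R
      (Nat.mul_pos (by omega) ha) (by rw [← hk']; exact h2) (by omega) (by omega) h9
    refine ⟨Q, Γ, hQ, hΓ, P, by rw [hN]; exact h3, by rw [hN]; exact h4, fun I => ⟨by rw [hf]; exact (h5 I).1, ?_⟩⟩
    have h6 : (Nat.card {x // P.Asks I x} : ℝ) ≤ (((R + 2) * (M * a * m) * Fintype.card (Word D m B) : ℕ) : ℝ) := by
      rw [← Nat.card_eq_fintype_card]
      exact_mod_cast (h5 I).2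
    refine h6.trans ?_
    rw [le_div_iff₀ (Real.sqrt_pos.2 hk0)]
    have h7 : (N : ℝ) = k * Fintype.card (Word D m B) := by
      rw [hN', Fintype.card_prod, hk']
      push_cast
      rfl
    have hL0 : (0 : ℝ) ≤ Fintype.card (Word D m B) := Nat.cast_nonneg _
    have h8 : √(k : ℝ) * √k = k := Real.mul_self_sqrt hk0.le
    push_cast
    push_cast at h1
    calc ((R : ℝ) + 2) * (M * a * m) * Fintype.card (Word D m B) * √k
        ≤ √k * Fintype.card (Word D m B) * √k := by gcongr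
      _ = (√k * √k) * Fintype.card (Word D m B) := by ring
      _ = N := by rw [h8, h7]

end Pool.Agent.Helper6.RQ
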