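import Pool.Agent.Helper6.RQ.Final

/-!
# The final theorem with helper74's `most_once`
-/

set_option autoImplicit false

namespace Pool.Agent.Helper6.RQ

open Finset Pool.Agent.Helper19.NF Pool.Agent.Helper74.NW Pool.Agent.Helper99.NQ Pool.Agent.Helper43.NK
open Pool.Agent.Helper19.NF (PProg)
open Pool.Agent.Helper99.NK (times)

theorem finalT (F : Type) [Field F] [Fintype F] (δ : ℝ) (hδ : 0 < δ) : ∃ c : ℕ, ∀ r : ℕ,
    ∃ (C D M m : ℕ) (_ : NeZero m), D * m ≤ 2 ^ (c * (r + 1)) ∧ C ≤ 2 ^ (2 ^ (c * (r + 1))) ∧ 1 < D ∧ 1 < M ∧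
      ∀ a : ℕ, 1 ≤ a →
      ∃ G : Set (Fin D → Equiv.Perm (Fin (M * a))),
      2 ^ (M * a) * Nat.card {g // g ∉ G} ≤ Nat.card (Fin D → Equiv.Perm (Fin (M * a))) ∧ ∀ g ∈ G,
      ∀ (B : Type) [AddCommGroup B] [Module F B] [Fintype B] (x0 : Fin (M * a) × Fin m → B),
      Function.Injective x0 → ∀ (R k N : ℕ) (q E : ℝ) (f : (B × Word D m B → F) → F),
      1 ≤ R → R ≤ a → k = Nat.card B → C * (a * R) ^ 2 ≤ k → N = Nat.card (B × Word D m B) → q = Nat.card F →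
      E = C * ((a * R) ^ 2 / k + 1 / √k) + 1 / 2 ^ a → f = out g x0 (R + 1) →
      N = k ^ (D * m + 1) ∧
      (∀ y, (1 / q - E) * Nat.card (B × Word D m B → F) ≤ Nat.card {I // f I = y}) ∧
      (∀ (S : ℕ) (P : NProg (B × Word D m B) F F S), (∀ I l z, P.Ends I l z → z = f I) →
        (S ≤ 2 ^ a → (S ≤ 2 ^ R ∨ ∀ I l z, P.Ends I l z → l.length ≤ 2 ^ R) →
          (Nat.card {I : B × Word D m B → F // (∃ l z, P.Ends I l z) ∧
            ∀ l z, P.Ends I l z → (1 / q + δ) * N ≤ Nat.card {x // times l x ≤ r}} : ℝ) ≤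
            E * Nat.card (B × Word D m B → F)) ∧
        (∀ L : ℕ, L ≤ (1 - 1 / q - δ) * (r + 1) * N → L ≤ 2 ^ R → S * (L + 1) ≤ 2 ^ a →
          (Nat.card {I : B × Word D m B → F // ∃ l z, P.Ends I l z ∧ l.length ≤ L} : ℝ) ≤
            E * Nat.card (B × Word D m B → F))) ∧
      (∀ (b : ℕ) (Q Γ : Type) (_ : Finite Q) (P : NPProg (B × Word D m B) F F Q Γ),
        (∀ I l j z, P.Ends I l j z → z = f I) →
        ((2 * Nat.card Q ^ 2 + 2) ^ (b + 2) ≤ 2 ^ R →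
          (Nat.card {I : B × Word D m B → F // (∃ l j z, P.Ends I l j z ∧ j ≤ 2 ^ b) ∧
            ∀ l j z, P.Ends I l j z → (1 / q + δ) * N ≤ Nat.card {x // times l x ≤ r}} : ℝ) ≤
            E * Nat.card (B × Word D m B → F)) ∧
        (∀ L : ℕ, L ≤ (1 - 1 / q - δ) * (r + 1) * N → L + 1 ≤ 2 ^ R →
          (2 * Nat.card Q ^ 2 + 2) ^ (b + 2) * (L + 2) ≤ 2 ^ a →
          (Nat.card {I : B × Word D m B → F // ∃ l j z, P.Ends I l j z ∧ j ≤ 2 ^ b ∧ l.length ≤ L} : ℝ) ≤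
            E * Nat.card (B × Word D m B → F))) ∧
      (∃ (Q Γ : Type) (_ : Finite Q) (_ : Finite Γ) (P : PProg (B × Word D m B) F F Q Γ),
        Nat.card Q ≤ N ^ 3 ∧ Nat.card Γ ≤ N ∧
        ∀ I, P.Outputs I (f I) ∧ (Nat.card {x // P.Asks I x} : ℝ) ≤ N / √k) ∧
      (∀ (S : ℕ) (P : NProg (B × Word D m B) F F S), ∃ (S' : ℕ) (P' : NProg (B × Word D m B) F F S'),
        S' ≤ (N + 1) ^ 3 * (Nat.card F * S + 1) ∧ (∀ I z, (∃ l, P'.Ends I l z) ↔ ∃ l, P.Ends I l z) ∧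
        (Nat.card {I : B × Word D m B → F // ¬ ∀ l z, P'.Ends I l z →
          (1 / q - δ) * N ≤ Nat.card {x // times l x ≤ 1}} : ℝ) ≤
          4 / (δ ^ 2 * N) * Nat.card (B × Word D m B → F)) := by
  obtain ⟨c, hc⟩ := final F δ hδ
  refine ⟨c, fun r => ?_⟩
  obtain ⟨C, D, M, m, hm, h1, h2, h3, h4, h5⟩ := hc r
  refine ⟨C, D, M, m, hm, h1, h2, h3, h4, fun a ha => ?_⟩
  obtain ⟨G, h6, h7⟩ := h5 a ha
  refine ⟨G, h6, fun g hg B _ _ _ x0 hx0 R k N q E f hR hRa hk hCk hN hq hE hf => ?_⟩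
  obtain ⟨h8, h9, h10, h11, h12⟩ := h7 g hg B x0 hx0 R k N q E f hR hRa hk hCk hN hq hE hf
  refine ⟨h8, h9, h10, h11, h12, fun S P => ?_⟩
  obtain ⟨S', P', h13, h14, h15⟩ := Pool.Agent.Helper74.RT.most_once P (0 : F) ((0, 0) : B × Word D m B) hδ
  refine ⟨S', P', by rw [hN]; exact h13, h14, ?_⟩
  rw [hN, hq]
  exact h15

end Pool.Agent.Helper6.RQ
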