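import Mathlib.Algebra.Order.Ring.Nat
import Mathlib.Tactic.Ring
import Mathlib.Tactic.Linarith
import Mathlib.Data.Nat.Log

/-!
# Functions of `w` which are at most `2 ^ (c (w + 1))`
-/

set_option autoImplicit false

namespace Pool.Agent.Helper6.RQ

/-- `f w` is at most `2 ^ (c (w + 1))` for some constant `c`. -/
def EB (f : ℕ → ℕ) : Prop := ∃ c, ∀ w, f w ≤ 2 ^ (c * (w + 1))

theorem EB.mono {f g : ℕ → ℕ} (hg : EB g) (h : ∀ w, f w ≤ g w) : EB f := by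
  obtain ⟨c, hc⟩ := hg
  exact ⟨c, fun w => (h w).trans (hc w)⟩

theorem EB.const (k : ℕ) : EB (fun _ => k) := by
  refine ⟨k, fun w => ?_⟩
  calc k ≤ 2 ^ k := (Nat.lt_two_pow_self).le
    _ ≤ 2 ^ (k * (w + 1)) := Nat.pow_le_pow_right (by norm_num) (Nat.le_mul_of_pos_right _ (by omega))

theorem EB.id : EB (fun w => w) := by
  refine ⟨1, fun w => ?_⟩
  calc w ≤ 2 ^ w := (Nat.lt_two_pow_self).le
    _ ≤ 2 ^ (1 * (w + 1)) := Nat.pow_le_pow_right (by norm_num) (by omega)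

theorem EB.mul {f g : ℕ → ℕ} (hf : EB f) (hg : EB g) : EB (fun w => f w * g w) := by
  obtain ⟨c, hc⟩ := hf
  obtain ⟨d, hd⟩ := hg
  refine ⟨c + d, fun w => ?_⟩
  calc f w * g w ≤ 2 ^ (c * (w + 1)) * 2 ^ (d * (w + 1)) := Nat.mul_le_mul (hc w) (hd w)
    _ = 2 ^ ((c + d) * (w + 1)) := by rw [← pow_add, add_mul]

theorem EB.add {f g : ℕ → ℕ} (hf : EB f) (hg : EB g) : EB (fun w => f w + g w) := by
  obtain ⟨c, hc⟩ := hf
  obtain ⟨d, hd⟩ := hg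
  refine ⟨c + d + 1, fun w => ?_⟩
  have h1 : 2 ^ (c * (w + 1)) ≤ 2 ^ ((c + d) * (w + 1)) := Nat.pow_le_pow_right (by norm_num) (by nlinarith)
  have h2 : 2 ^ (d * (w + 1)) ≤ 2 ^ ((c + d) * (w + 1)) := Nat.pow_le_pow_right (by norm_num) (by nlinarith)
  calc f w + g w ≤ 2 ^ ((c + d) * (w + 1)) + 2 ^ ((c + d) * (w + 1)) :=
        Nat.add_le_add ((hc w).trans h1) ((hd w).trans h2)
    _ = 2 ^ ((c + d) * (w + 1) + 1) := by ring
    _ ≤ 2 ^ ((c + d + 1) * (w + 1)) := Nat.pow_le_pow_right (by norm_num) (by nlinarith)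

theorem EB.pow {f : ℕ → ℕ} (hf : EB f) (k : ℕ) : EB (fun w => f w ^ k) := by
  obtain ⟨c, hc⟩ := hf
  refine ⟨c * k, fun w => ?_⟩
  calc f w ^ k ≤ (2 ^ (c * (w + 1))) ^ k := Nat.pow_le_pow_left (hc w) k
    _ = 2 ^ (c * k * (w + 1)) := by
        rw [← pow_mul]
        congr 1
        ring

theorem EB.exp (k : ℕ) : EB (fun w => k ^ (w + 1)) := by
  refine ⟨k, fun w => ?_⟩
  calc k ^ (w + 1) ≤ (2 ^ k) ^ (w + 1) := Nat.pow_le_pow_left (Nat.lt_two_pow_self).le _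
    _ = 2 ^ (k * (w + 1)) := (pow_mul _ _ _).symm

/-- The number `t` of a number `y`: `2 ^ t` is at least `t y` and at most `64 y ^ 2`. -/
theorem exists_t (y : ℕ) (hy : 2 ≤ y) : y * (2 * Nat.clog 2 y + 4) ≤ 2 ^ (2 * Nat.clog 2 y + 4) ∧
    2 ^ (2 * Nat.clog 2 y + 4) ≤ 64 * y ^ 2 := by
  have h1 : y ≤ 2 ^ Nat.clog 2 y := Nat.le_pow_clog (by norm_num) y
  have h0 : 0 < Nat.clog 2 y := Nat.clog_pos (by norm_num) hy
  obtain ⟨s, hs⟩ : ∃ s, Nat.clog 2 y = s + 1 := ⟨Nat.clog 2 y - 1, by omega⟩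
  have h2 : 2 ^ s < y := by
    have := Nat.pow_pred_clog_lt_self (b := 2) (by norm_num) (x := y) (by omega)
    rw [hs] at this
    exact this
  constructor
  · have h3 : 2 * Nat.clog 2 y + 4 ≤ 2 ^ (Nat.clog 2 y + 4) := by
      have h4 : Nat.clog 2 y < 2 ^ Nat.clog 2 y := Nat.lt_two_pow_self
      have h5 : 1 ≤ 2 ^ Nat.clog 2 y := Nat.one_le_two_pow
      have h6 : 2 ^ (Nat.clog 2 y + 4) = 16 * 2 ^ Nat.clog 2 y := by ring
      omega
    calc y * (2 * Nat.clog 2 y + 4) ≤ 2 ^ Nat.clog 2 y * 2 ^ (Nat.clog 2 y + 4) := Nat.mul_le_mul h1 h3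
      _ = 2 ^ (2 * Nat.clog 2 y + 4) := by
          rw [← pow_add]
          congr 1
          ring
  · rw [hs]
    calc 2 ^ (2 * (s + 1) + 4) = 64 * (2 ^ s) ^ 2 := by
          rw [← pow_mul]
          have : 2 * (s + 1) + 4 = s * 2 + 6 := by ring
          rw [this, pow_add]
          norm_num
          ring
      _ ≤ 64 * y ^ 2 := Nat.mul_le_mul_left _ (Nat.pow_le_pow_left h2.le 2)

end Pool.Agent.Helper6.RQ
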