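import Pool.Agent.Helper99.NK.Num
import Pool.Agent.Helper6.RQ.Grow

/-!
# The numbers of NK / RQ as functions of `w` (after helper99's `numbers`)
-/

set_option autoImplicit false

namespace Pool.Agent.Helper6.RQ

open Pool.Agent.Helper99.NQ Pool.Agent.Helper43.NK Pool.Agent.Helper99.NK Filter

/-- `16 (1 + p x) ≤ 2 ^ x` for all large `x`. -/
theorem exists_c1 (p : ℕ) : ∃ c1 : ℕ, ∀ x, c1 ≤ x → 16 * (1 + p * x) ≤ 2 ^ x := by
  have h1 := tendsto_pow_const_div_const_pow_of_one_lt 1 (show (1 : ℝ) < 2 by norm_num)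
  have h2 : ∀ᶠ n : ℕ in atTop, (n : ℝ) ^ 1 / 2 ^ n < 1 / (16 * (1 + p)) :=
    h1.eventually (gt_mem_nhds (by positivity))
  obtain ⟨c, hc⟩ := eventually_atTop.1 (h2.and (eventually_ge_atTop 1))
  refine ⟨c, fun x hx => ?_⟩
  obtain ⟨h3, h4⟩ := hc x hx
  rw [div_lt_div_iff₀ (by positivity) (by positivity), one_mul, pow_one] at h3
  have h5 : ((16 * (1 + p * x) : ℕ) : ℝ) ≤ ((2 ^ x : ℕ) : ℝ) := by
    push_cast
    have h6 : (1 : ℝ) ≤ x := by exact_mod_cast h4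
    have h7 : (0 : ℝ) ≤ p := Nat.cast_nonneg _
    nlinarith
  exact_mod_cast h5

/-- `2 ≤ (1 + δ / 8) ^ e` for some `e`. -/
theorem exists_e0 (δ : ℝ) (hδ : 0 < δ) : ∃ e : ℕ, (2 : ℝ) ≤ (1 + δ / 8) ^ e := by
  obtain ⟨e, he⟩ := pow_unbounded_of_one_lt (2 : ℝ) (show (1 : ℝ) < 1 + δ / 8 by linarith)
  exact ⟨e, he.le⟩

/-! The numbers, as functions of `w`; `p`, `e`, `c1`, `q` are constants. -/

def nS (p w : ℕ) : ℕ := (2 * p ^ (w + 1)) ^ 2
def nD (p w : ℕ) : ℕ := 9 * nS p w * (w + 1)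
def nK (p c1 w : ℕ) : ℕ := c1 + (2 * w + 6) + 2 * nS p w + nS p w * (w + 1) * (nD p w + 1)
def nK2 (p c1 q w : ℕ) : ℕ := 9 + 6 * nS p w + 2 * nS p w * (nD p w + 1) + 4 * (p * nK p c1 w) * nS p w * q
def nY (p e c1 q w : ℕ) : ℕ := e * nK2 p c1 q w + 2 ^ (w + 1)
noncomputable def nT (p e c1 q w : ℕ) : ℕ := 2 * Nat.clog 2 (nY p e c1 q w) + 4
noncomputable def nG (p e c1 q w : ℕ) : ℕ :=
  5 + (w + 2) + nS p w + nS p w * (w + 1) * (nD p w + nT p e c1 q w) +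
    (3 * nS p w + q * (2 * (p * (nK p c1 w * nT p e c1 q w) * nS p w))) * (w + 1)

theorem EB_S (p : ℕ) : EB (nS p) := ((EB.const 2).mul (EB.exp p)).pow 2
theorem EB_w1 : EB (fun w => w + 1) := EB.id.add (EB.const 1)
theorem EB_D (p : ℕ) : EB (nD p) := ((EB.const 9).mul (EB_S p)).mul EB_w1
theorem EB_K (p c1 : ℕ) : EB (nK p c1) :=
  (((EB.const c1).add (((EB.const 2).mul EB.id).add (EB.const 6))).add ((EB.const 2).mul (EB_S p))).add
    (((EB_S p).mul EB_w1).mul ((EB_D p).add (EB.const 1)))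
theorem EB_K2 (p c1 q : ℕ) : EB (nK2 p c1 q) :=
  (((EB.const 9).add ((EB.const 6).mul (EB_S p))).add
    (((EB.const 2).mul (EB_S p)).mul ((EB_D p).add (EB.const 1)))).add
    ((((EB.const 4).mul ((EB.const p).mul (EB_K p c1))).mul (EB_S p)).mul (EB.const q))
theorem EB_Y (p e c1 q : ℕ) : EB (nY p e c1 q) := ((EB.const e).mul (EB_K2 p c1 q)).add (EB.exp 2)

theorem two_le_Y (p e c1 q w : ℕ) : 2 ≤ nY p e c1 q w := by
  have h : 2 ^ 1 ≤ 2 ^ (w + 1) := Nat.pow_le_pow_right (by norm_num) (by omega)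
  unfold nY
  omega

theorem EB_m (p e c1 q : ℕ) : EB (fun w => 2 ^ nT p e c1 q w) :=
  ((EB.const 64).mul ((EB_Y p e c1 q).pow 2)).mono (fun w => (exists_t _ (two_le_Y p e c1 q w)).2)
theorem EB_T (p e c1 q : ℕ) : EB (nT p e c1 q) :=
  (EB_m p e c1 q).mono (fun _ => (Nat.lt_two_pow_self).le)
theorem EB_G (p e c1 q : ℕ) : EB (nG p e c1 q) :=
  ((((EB.const 5).add (EB.id.add (EB.const 2))).add (EB_S p)).add
    (((EB_S p).mul EB_w1).mul ((EB_D p).add (EB_T p e c1 q)))).add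
    ((((EB.const 3).mul (EB_S p)).add ((EB.const q).mul ((EB.const 2).mul
      (((EB.const p).mul ((EB_K p c1).mul (EB_T p e c1 q))).mul (EB_S p))))).mul EB_w1)

theorem le_two_pow (x : ℕ) : x ≤ 2 ^ x := (Nat.lt_two_pow_self).le

theorem pow_le_two_pow (x k : ℕ) : x ^ k ≤ 2 ^ (x * k) := by
  rw [pow_mul]
  exact Nat.pow_le_pow_left (le_two_pow x) k

/-- NK, C3: the numbers, with their size: `9 M ^ 2 (w + 1) m ≤ 2 ^ (c (w + 1))`, `C ≤ 2 ^ (2 ^ (c (w + 1)))`. -/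
theorem numbers (q : ℕ) (hq : 2 ≤ q) (δ : ℝ) (hδ : 0 < δ) : ∃ c : ℕ, ∀ w : ℕ, ∃ M μ m d D' C : ℕ,
    M ^ 2 ≤ 2 ^ (c * (w + 1)) ∧ 9 * M ^ 2 * (w + 1) ≤ 2 ^ (c * (w + 1)) ∧ m ≤ 2 ^ (c * (w + 1)) ∧
    C ≤ 2 ^ (2 ^ (c * (w + 1))) ∧ 2 ≤ M ∧ 1 ≤ m ∧ 1 ≤ d ∧ 1 ≤ μ ∧
    d = μ * D' ∧ 4 * μ ^ (w + 1) ≤ 3 * M ^ 2 ∧ 1 ≤ C ∧
    (∀ L h : ℕ, 0 < L → 1 / q + δ / 4 ≤ (h : ℝ) / L →
      16 * (1 + d * q) * q ^ D' * L ^ d * q ^ (2 * D') ≤ (h * q) ^ d) ∧
    ∀ a : ℕ, 1 ≤ a → ∀ r r' η : ℝ, 1 / q + δ / 4 ≤ r → 1 / q + δ / 4 ≤ r' →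
      1 + δ / 8 ≤ η →
      (2 ^ a) ^ 4 * 2 ^ (M ^ 2 * a) * (((9 * M ^ 2 * (w + 1) : ℕ) : ℝ) * m) ^ (2 * (M ^ 2 * a)) *
        err (M ^ 2 * a) m d a (M * a) (M ^ 2 * a / 2) q r η ≤ 1 / 2 ^ (a + 1) ∧
      ∀ Q : ℝ, C ≤ Q →
      (2 ^ a) ^ (w + 2) * 2 ^ (M ^ 2 * a) * (((9 * M ^ 2 * (w + 1) : ℕ) : ℝ) * m) ^ ((M ^ 2 * a) * (w + 1)) *
        errB (M ^ 2 * a) d w ((q ^ (2 * D')) ^ a) q r' (Q ^ (-((a * m : ℕ) : ℝ) / 2 ^ (2 * w + 3))) ≤
      1 / 2 ^ (a + 1) := by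
  have hq2 : (2 : ℝ) ≤ q := by exact_mod_cast hq
  have hq0 : (0 : ℝ) < q := by linarith
  -- the parameter `M`
  obtain ⟨p, hp1, hp⟩ : ∃ p : ℕ, 1 ≤ p ∧ (q : ℝ) ^ 4 ≤ (1 + q * (δ / 4)) ^ p := by
    have h1 : (1 : ℝ) < 1 + q * (δ / 4) := by
      have : 0 < q * (δ / 4) := by positivity
      linarith
    obtain ⟨N, hN⟩ := pow_unbounded_of_one_lt ((q : ℝ) ^ 4) h1
    exact ⟨max N 1, le_max_right _ _, hN.le.trans (pow_le_pow_right₀ h1.le (le_max_left _ _))⟩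
  obtain ⟨e, he⟩ := exists_e0 δ hδ
  obtain ⟨c1, hc1⟩ := exists_c1 (p * q)
  obtain ⟨cS, hcS⟩ := EB_S p
  obtain ⟨cD, hcD⟩ := EB_D p
  obtain ⟨cm, hcm⟩ := EB_m p e c1 q
  obtain ⟨cG, hcG⟩ := EB_G p e c1 q
  refine ⟨cS + cD + cm + cG, fun w => ?_⟩
  have hpw : ∀ x, x ≤ cS + cD + cm + cG → 2 ^ (x * (w + 1)) ≤ 2 ^ ((cS + cD + cm + cG) * (w + 1)) := fun x hx =>
    Nat.pow_le_pow_right (by norm_num) (Nat.mul_le_mul_right _ hx)
  obtain ⟨M1, hM1⟩ : ∃ M1 : ℕ, M1 = p ^ (w + 1) := ⟨_, rfl⟩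
  have hM11 : p ≤ M1 := by
    rw [hM1]
    exact Nat.le_self_pow (by omega) _
  obtain ⟨M, hM⟩ : ∃ M : ℕ, M = 2 * M1 := ⟨_, rfl⟩
  have hMS : nS p w = M ^ 2 := by rw [nS, hM, hM1]
  obtain ⟨D, hD⟩ : ∃ D : ℕ, D = 9 * M ^ 2 * (w + 1) := ⟨_, rfl⟩
  have hDn : nD p w = D := by rw [nD, hMS, hD]
  obtain ⟨K, hKn⟩ : ∃ K, K = nK p c1 w := ⟨_, rfl⟩
  obtain ⟨K2, hK2n⟩ : ∃ K2, K2 = nK2 p c1 q w := ⟨_, rfl⟩
  obtain ⟨y, hy⟩ : ∃ y, y = nY p e c1 q w := ⟨_, rfl⟩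
  obtain ⟨t, ht⟩ : ∃ t, t = nT p e c1 q w := ⟨_, rfl⟩
  obtain ⟨S, hS⟩ : ∃ S, S = M ^ 2 := ⟨_, rfl⟩
  have hK : K = c1 + (2 * w + 6) + 2 * S + S * (w + 1) * (D + 1) := by rw [hKn, nK, hMS, hDn, hS]
  have hK2 : K2 = 9 + 6 * S + 2 * S * (D + 1) + 4 * (p * K) * S * q := by rw [hK2n, nK2, hMS, hDn, hS, hKn]
  have hy2 : y = e * K2 + 2 ^ (w + 1) := by rw [hy, nY, hK2n]
  have hyt : y * t ≤ 2 ^ t := by
    rw [hy, ht]
    exact (exists_t _ (two_le_Y p e c1 q w)).1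
  have ht1 : 2 * w + 3 ≤ t := by
    have h1 : w < Nat.clog 2 y := by
      rw [Nat.lt_clog_iff_pow_lt (by norm_num), hy2, pow_succ]
      have : 0 < 2 ^ w := by positivity
      omega
    rw [ht, nT, ← hy]
    omega
  obtain ⟨m, hm⟩ : ∃ m : ℕ, m = 2 ^ t := ⟨_, rfl⟩
  have hm1 : 1 ≤ m := by
    rw [hm]
    exact Nat.one_le_two_pow
  have hM2 : 2 ≤ M := by omega
  have ht0 : 1 ≤ t := by omega
  have hK1 : c1 ≤ K := by omega
  have hK0 : 1 ≤ K := by omega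
  obtain ⟨X, hX⟩ : ∃ X : ℕ, X = 2 ^ (w + 2) * 2 ^ (M ^ 2) * (D * m) ^ (M ^ 2 * (w + 1)) := ⟨_, rfl⟩
  have hDm : D * m ≤ 2 ^ (D + t) := by
    rw [hm, pow_add]
    exact Nat.mul_le_mul_right _ (le_two_pow D)
  have hqr4 : ∀ r : ℝ, 1 / q + δ / 4 ≤ r → (q : ℝ) ^ 4 ≤ (q * r) ^ p := by
    intro r hr
    have h1 : 1 + q * (δ / 4) ≤ q * r := by
      have : q * (1 / q + δ / 4) ≤ q * r := mul_le_mul_of_nonneg_left hr hq0.le
      rw [mul_add, mul_one_div_cancel hq0.ne'] at this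
      exact this
    have h0 : (1 : ℝ) ≤ 1 + q * (δ / 4) := by
      have : 0 < q * (δ / 4) := by positivity
      linarith
    exact hp.trans (pow_le_pow_left₀ (by linarith) h1 _)
  have hX2 : X ≤ 2 ^ ((w + 2) + S + S * (w + 1) * (D + t)) := by
    calc X ≤ 2 ^ (w + 2) * 2 ^ (M ^ 2) * (2 ^ (D + t)) ^ (M ^ 2 * (w + 1)) := by
          rw [hX]
          exact Nat.mul_le_mul_left _ (Nat.pow_le_pow_left hDm _)
      _ = 2 ^ ((w + 2) + S + S * (w + 1) * (D + t)) := by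
          rw [← hS, ← pow_mul, ← pow_add, ← pow_add]
          congr 1
          ring
  have hCle : 16 * X * (8 ^ (M ^ 2) * q ^ (2 * (p * (K * t) * M ^ 2))) ^ (w + 1) + 1 ≤ 2 ^ nG p e c1 q w := by
    have h1 : 8 ^ (M ^ 2) * q ^ (2 * (p * (K * t) * M ^ 2)) ≤ 2 ^ (3 * S + q * (2 * (p * (K * t) * S))) := by
      rw [pow_add, ← hS]
      refine Nat.mul_le_mul ?_ (pow_le_two_pow _ _)
      rw [pow_mul]
      norm_num
    have h2 : 16 * X * (8 ^ (M ^ 2) * q ^ (2 * (p * (K * t) * M ^ 2))) ^ (w + 1) ≤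
        2 ^ (4 + ((w + 2) + S + S * (w + 1) * (D + t)) + (3 * S + q * (2 * (p * (K * t) * S))) * (w + 1)) := by
      rw [pow_add 2 (4 + ((w + 2) + S + S * (w + 1) * (D + t))), pow_add 2 4,
        pow_mul 2 (3 * S + q * (2 * (p * (K * t) * S))) (w + 1)]
      exact Nat.mul_le_mul (Nat.mul_le_mul (by norm_num) hX2) (Nat.pow_le_pow_left h1 _)
    have h3 : nG p e c1 q w = (4 + ((w + 2) + S + S * (w + 1) * (D + t)) +
        (3 * S + q * (2 * (p * (K * t) * S))) * (w + 1)) + 1 := by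
      rw [nG, ← ht, ← hKn, hDn, hMS, ← hS]
      ring
    rw [h3]
    calc 16 * X * (8 ^ (M ^ 2) * q ^ (2 * (p * (K * t) * M ^ 2))) ^ (w + 1) + 1
        ≤ 2 ^ (4 + ((w + 2) + S + S * (w + 1) * (D + t)) + (3 * S + q * (2 * (p * (K * t) * S))) * (w + 1)) +
          2 ^ (4 + ((w + 2) + S + S * (w + 1) * (D + t)) + (3 * S + q * (2 * (p * (K * t) * S))) * (w + 1)) :=
          Nat.add_le_add h2 Nat.one_le_two_pow
      _ = _ := by
          rw [pow_succ 2 (4 + ((w + 2) + S + S * (w + 1) * (D + t)) +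
            (3 * S + q * (2 * (p * (K * t) * S))) * (w + 1)), mul_two]
  refine ⟨M, p, m, p * (K * t), K * t, 16 * X * (8 ^ (M ^ 2) * q ^ (2 * (p * (K * t) * M ^ 2))) ^ (w + 1) + 1,
    ?_, ?_, ?_, ?_, hM2, hm1, Nat.mul_pos (by omega) (Nat.mul_pos hK0 ht0), hp1, rfl, ?_, by omega, ?_,
    fun a ha r r' η hr hr' hη => ⟨?_, ?_⟩⟩
  · rw [← hMS]
    exact (hcS w).trans (hpw _ (by omega))
  · rw [← hD, ← hDn]
    exact (hcD w).trans (hpw _ (by omega))
  · rw [hm, ht]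
    exact (hcm w).trans (hpw _ (by omega))
  · exact hCle.trans (Nat.pow_le_pow_right (by norm_num) ((hcG w).trans (hpw _ (by omega))))
  · rw [← hM1, hM]
    have : 1 ≤ M1 := by omega
    nlinarith
  · intro L h hL hh
    have hL0 : (0 : ℝ) < L := by exact_mod_cast hL
    have h1 : 16 * (1 + p * (K * t) * q) ≤ q ^ (K * t) := by
      calc 16 * (1 + p * (K * t) * q) = 16 * (1 + p * q * (K * t)) := by ring
        _ ≤ 2 ^ (K * t) := hc1 _ (hK1.trans (Nat.le_mul_of_pos_right _ (by omega)))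
        _ ≤ q ^ (K * t) := Nat.pow_le_pow_left hq _
    have h2 : (L : ℝ) ^ (p * (K * t)) * q ^ (4 * (K * t)) ≤ ((h : ℝ) * q) ^ (p * (K * t)) := by
      have h4 := hqr4 _ hh
      calc (L : ℝ) ^ (p * (K * t)) * q ^ (4 * (K * t)) = (L : ℝ) ^ (p * (K * t)) * ((q : ℝ) ^ 4) ^ (K * t) := by
            rw [pow_mul (q : ℝ) 4]
        _ ≤ (L : ℝ) ^ (p * (K * t)) * ((q * ((h : ℝ) / L)) ^ p) ^ (K * t) := by gcongr
        _ = ((h : ℝ) * q) ^ (p * (K * t)) := by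
            rw [← pow_mul, ← mul_pow]
            congr 1
            field_simp
    have h2' : L ^ (p * (K * t)) * q ^ (4 * (K * t)) ≤ (h * q) ^ (p * (K * t)) := by exact_mod_cast h2
    calc 16 * (1 + p * (K * t) * q) * q ^ (K * t) * L ^ (p * (K * t)) * q ^ (2 * (K * t))
        ≤ q ^ (K * t) * q ^ (K * t) * L ^ (p * (K * t)) * q ^ (2 * (K * t)) := by gcongr
      _ = L ^ (p * (K * t)) * q ^ (4 * (K * t)) := by ring
      _ ≤ _ := h2'
  · rw [← hD]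
    have hG : (16 * 2 ^ (M ^ 2) * ((D : ℝ) * m) ^ (2 * M ^ 2)) ≤ 2 ^ (4 + S + 2 * S * (D + t)) := by
      have h1 : 16 * 2 ^ (M ^ 2) * (D * m) ^ (2 * M ^ 2) ≤ 2 ^ (4 + S + 2 * S * (D + t)) := by
        calc 16 * 2 ^ (M ^ 2) * (D * m) ^ (2 * M ^ 2) ≤ 16 * 2 ^ (M ^ 2) * (2 ^ (D + t)) ^ (2 * M ^ 2) :=
              Nat.mul_le_mul_left _ (Nat.pow_le_pow_left hDm _)
          _ = 2 ^ 4 * 2 ^ S * 2 ^ ((D + t) * (2 * S)) := by
              rw [← hS, ← pow_mul]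
              norm_num
          _ = 2 ^ (4 + S + 2 * S * (D + t)) := by
              rw [← pow_add, ← pow_add]
              congr 1
              ring
      exact_mod_cast h1
    have hG0 : (0 : ℝ) ≤ 16 * 2 ^ (M ^ 2) * ((D : ℝ) * m) ^ (2 * M ^ 2) := by positivity
    have hq1r : 1 ≤ (q : ℝ) * r := by
      have : q * (1 / q + δ / 4) ≤ q * r := mul_le_mul_of_nonneg_left hr hq0.le
      rw [mul_add, mul_one_div_cancel hq0.ne'] at this
      have h9 : 0 < q * (δ / 4) := by positivity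
      linarith
    refine core2 hq (by omega) hM ha (by linarith) (by linarith) ?_ rfl ?_ ?_
    · exact (hqr4 r hr).trans (pow_le_pow_right₀ hq1r (by omega))
    · have h1 : 12 * 2 ^ (4 + S + 2 * S * (D + t)) * (8 * 4 ^ S) ≤ q ^ (2 * (p * (K * t))) := by
        calc 12 * 2 ^ (4 + S + 2 * S * (D + t)) * (8 * 4 ^ S)
            ≤ 2 ^ 4 * 2 ^ (4 + S + 2 * S * (D + t)) * (2 ^ 3 * 2 ^ (2 * S)) := by
              rw [pow_mul 2 2 S]
              norm_num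
          _ = 2 ^ (11 + 3 * S + 2 * S * (D + t)) := by
              rw [← pow_add, ← pow_add, ← pow_add]
              congr 1
              ring
          _ ≤ 2 ^ (2 * (p * (K * t))) := by
              refine Nat.pow_le_pow_right (by norm_num) ?_
              have h3 : K * t ≤ p * (K * t) := Nat.le_mul_of_pos_left _ (by omega)
              have h4 : 2 * S * (D + t) ≤ 2 * S * (D + 1) * t := by
                have : D + t ≤ (D + 1) * t := by nlinarith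
                calc 2 * S * (D + t) ≤ 2 * S * ((D + 1) * t) := Nat.mul_le_mul_left _ this
                  _ = _ := by ring
              have h5 : S * (D + 1) ≤ S * (w + 1) * (D + 1) := by
                refine Nat.mul_le_mul_right _ ?_
                exact Nat.le_mul_of_pos_right _ (by omega)
              have h6 : 11 + 3 * S + 2 * (S * (D + 1)) ≤ 2 * K := by omega
              have h7 : 11 + 3 * S ≤ (11 + 3 * S) * t := Nat.le_mul_of_pos_right _ (by omega)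
              calc 11 + 3 * S + 2 * S * (D + t) ≤ (11 + 3 * S) * t + 2 * S * (D + 1) * t := by omega
                _ = (11 + 3 * S + 2 * (S * (D + 1))) * t := by ring
                _ ≤ 2 * K * t := Nat.mul_le_mul_right _ h6
                _ = 2 * (K * t) := by ring
                _ ≤ 2 * (p * (K * t)) := by omega
          _ ≤ q ^ (2 * (p * (K * t))) := Nat.pow_le_pow_left hq _
      have h2 : (12 * 2 ^ (4 + S + 2 * S * (D + t)) * (8 * 4 ^ S) : ℝ) ≤ (q : ℝ) ^ (2 * (p * (K * t))) := by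
        exact_mod_cast h1
      refine le_trans ?_ h2
      rw [hS] at hG ⊢
      gcongr
    · have h1 : 12 * 2 ^ (4 + S + 2 * S * (D + t)) * (2 * 2 ^ (5 * S) * q ^ (4 * (p * (K * t)) * S)) ≤
          2 ^ (K2 * t) := by
        calc 12 * 2 ^ (4 + S + 2 * S * (D + t)) * (2 * 2 ^ (5 * S) * q ^ (4 * (p * (K * t)) * S))
            ≤ 2 ^ 4 * 2 ^ (4 + S + 2 * S * (D + t)) * (2 ^ 1 * 2 ^ (5 * S) * 2 ^ (q * (4 * (p * (K * t)) * S))) := by
              refine Nat.mul_le_mul (Nat.mul_le_mul_right _ (by norm_num)) ?_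
              exact Nat.mul_le_mul (by norm_num) (pow_le_two_pow _ _)
          _ = 2 ^ (9 + 6 * S + 2 * S * (D + t) + q * (4 * (p * (K * t)) * S)) := by
              rw [← pow_add, ← pow_add, ← pow_add, ← pow_add]
              congr 1
              ring
          _ ≤ 2 ^ (K2 * t) := by
              refine Nat.pow_le_pow_right (by norm_num) ?_
              have h4 : 2 * S * (D + t) ≤ 2 * S * (D + 1) * t := by
                have : D + t ≤ (D + 1) * t := by nlinarith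
                calc 2 * S * (D + t) ≤ 2 * S * ((D + 1) * t) := Nat.mul_le_mul_left _ this
                  _ = _ := by ring
              have h7 : 9 + 6 * S ≤ (9 + 6 * S) * t := Nat.le_mul_of_pos_right _ (by omega)
              calc 9 + 6 * S + 2 * S * (D + t) + q * (4 * (p * (K * t)) * S)
                  ≤ (9 + 6 * S) * t + 2 * S * (D + 1) * t + q * (4 * (p * (K * t)) * S) := by omega
                _ = K2 * t := by
                    rw [hK2]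
                    ring
      have h2 : (12 * 2 ^ (4 + S + 2 * S * (D + t)) * (2 * 2 ^ (5 * S) * q ^ (4 * (p * (K * t)) * S)) : ℝ) ≤
          2 ^ (K2 * t) := by exact_mod_cast h1
      have h3 : (2 : ℝ) ^ (K2 * t) ≤ (1 + δ / 8) ^ m := by
        have h0 : (1 : ℝ) ≤ 1 + δ / 8 := by linarith
        calc (2 : ℝ) ^ (K2 * t) ≤ ((1 + δ / 8) ^ e) ^ (K2 * t) := pow_le_pow_left₀ (by norm_num) he _
          _ = (1 + δ / 8) ^ (e * (K2 * t)) := (pow_mul _ _ _).symm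
          _ ≤ (1 + δ / 8) ^ m := by
              refine pow_le_pow_right₀ h0 ?_
              rw [hm]
              refine le_trans ?_ hyt
              rw [← mul_assoc]
              refine Nat.mul_le_mul_right _ ?_
              rw [hy2]
              exact Nat.le_add_right _ _
      calc 12 * (16 * 2 ^ (M ^ 2) * ((D : ℝ) * m) ^ (2 * M ^ 2)) *
            (2 * 2 ^ (5 * M ^ 2) * (q : ℝ) ^ (4 * (p * (K * t)) * M ^ 2))
          ≤ 12 * 2 ^ (4 + S + 2 * S * (D + t)) * (2 * 2 ^ (5 * S) * (q : ℝ) ^ (4 * (p * (K * t)) * S)) := by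
            rw [hS] at hG ⊢
            gcongr
        _ ≤ 2 ^ (K2 * t) := h2
        _ ≤ (1 + δ / 8) ^ m := h3
        _ ≤ η ^ m := pow_le_pow_left₀ (by linarith) hη _
  · intro Q hQ
    rw [← hD]
    have hC0 : (0 : ℝ) ≤ ((16 * X * (8 ^ (M ^ 2) * q ^ (2 * (p * (K * t) * M ^ 2))) ^ (w + 1) : ℕ) : ℝ) :=
      Nat.cast_nonneg _
    have hQ1 : ((16 * X * (8 ^ (M ^ 2) * q ^ (2 * (p * (K * t) * M ^ 2))) ^ (w + 1) : ℕ) : ℝ) + 1 ≤ Q := by
      exact_mod_cast hQ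
    refine coreB (X := X) hq ha (by linarith) (by rw [hX]; push_cast; ring) ?_ ?_ (by linarith) ?_
    · have h1 : 8 * X * ((w + 1) * 2 ^ (M ^ 2)) ≤ q ^ (2 * (K * t)) := by
        calc 8 * X * ((w + 1) * 2 ^ (M ^ 2))
            ≤ 2 ^ 3 * 2 ^ ((w + 2) + S + S * (w + 1) * (D + t)) * (2 ^ (w + 1) * 2 ^ S) := by
              rw [← hS]
              refine Nat.mul_le_mul (Nat.mul_le_mul (by norm_num) hX2) (Nat.mul_le_mul_right _ (le_two_pow _))
          _ = 2 ^ (2 * w + 6 + 2 * S + S * (w + 1) * (D + t)) := by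
              rw [← pow_add, ← pow_add, ← pow_add]
              congr 1
              ring
          _ ≤ 2 ^ (2 * (K * t)) := by
              refine Nat.pow_le_pow_right (by norm_num) ?_
              have h4 : S * (w + 1) * (D + t) ≤ S * (w + 1) * (D + 1) * t := by
                have : D + t ≤ (D + 1) * t := by nlinarith
                calc S * (w + 1) * (D + t) ≤ S * (w + 1) * ((D + 1) * t) := Nat.mul_le_mul_left _ this
                  _ = _ := by ring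
              have h7 : 2 * w + 6 + 2 * S ≤ (2 * w + 6 + 2 * S) * t := Nat.le_mul_of_pos_right _ (by omega)
              have h8 : 2 * w + 6 + 2 * S + S * (w + 1) * (D + 1) ≤ K := by omega
              calc 2 * w + 6 + 2 * S + S * (w + 1) * (D + t)
                  ≤ (2 * w + 6 + 2 * S) * t + S * (w + 1) * (D + 1) * t := by omega
                _ = (2 * w + 6 + 2 * S + S * (w + 1) * (D + 1)) * t := by ring
                _ ≤ K * t := Nat.mul_le_mul_right _ h8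
                _ ≤ 2 * (K * t) := by omega
          _ ≤ q ^ (2 * (K * t)) := Nat.pow_le_pow_left hq _
      have h2 : ((8 * X * ((w + 1) * 2 ^ (M ^ 2)) : ℕ) : ℝ) ≤ ((q ^ (2 * (K * t)) : ℕ) : ℝ) := by
        exact_mod_cast h1
      push_cast at h2 ⊢
      exact h2
    · push_cast at hQ1
      linarith
    · rw [hm]
      exact Nat.pow_le_pow_right (by norm_num) ht1

end Pool.Agent.Helper6.RQ
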