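import Pool.Agent.Helper6.RQ.Num
import Pool.Agent.Helper99.NK.Par

/-!
# NK / RQ: the choice of the parameters, with their size (after helper99's `rare_bound`)
-/

set_option autoImplicit false

namespace Pool.Agent.Helper6.RQ

open Finset Pool.Agent.Helper19.NF Pool.Agent.Helper74.NW Pool.Agent.Helper99.NQ Pool.Agent.Helper43.NK
open Pool.Agent.Helper74.NE (fine fine_apply)
open Pool.Agent.Helper74.RQ (Rare)
open Pool.Agent.Helper27.RQ (Spread most_perms)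
open Pool.Agent.Helper99.NK (exists_h exists_e_T par_of)

section

variable {F : Type} [Field F] [Fintype F]

open Classical in
/-- All parameters: the bound for programs with rare symbols. -/
theorem rare_bound (δ : ℝ) (hδ : 0 < δ) (hδ1 : δ ≤ 1 - 1 / (Fintype.card F : ℝ)) :
    ∃ c : ℕ, ∀ r : ℕ, ∃ (C D M m W : ℕ) (_ : NeZero m), D * m ≤ 2 ^ (c * (r + 1)) ∧
      C ≤ 2 ^ (2 ^ (c * (r + 1))) ∧ 9 ≤ D * m ∧ 1 < D ∧ 1 < M ∧ 9 * (M * m) ^ 2 ≤ C ∧ D * m ≤ C ∧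
      16 / δ ≤ C ∧ ∀ a : ℕ, 1 ≤ a →
      2 ^ (M * a) * Nat.card {g : Fin D → Equiv.Perm (Fin (M * a)) // ¬ Spread D (M * a) W a g} ≤
        Nat.card (Fin D → Equiv.Perm (Fin (M * a))) ∧
      ∀ g : Fin D → Equiv.Perm (Fin (M * a)), Spread D (M * a) W a g →
      ∀ (B : Type) [AddCommGroup B] [Module F B] [Fintype B] (x0 : Fin (M * a) × Fin m → B),
      Function.Injective x0 → ∀ (R : ℕ), 1 ≤ R → R ≤ 2 ^ a → C ≤ Fintype.card B →
      ∀ (S : ℕ) (P : NProg (B × Word D m B) F F S), S ≤ 2 ^ a →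
      (∀ I l z, P.Ends I l z → z = out g x0 (R + 1) I) →
      ∀ θ : ℕ, (1 / (Fintype.card F : ℝ) + δ) * Fintype.card (B × Word D m B) ≤ θ + 1 →
      θ ≤ Fintype.card (B × Word D m B) →
      (Nat.card {I // Rare P θ r R I} : ℝ) ≤
        (C * (a * R) ^ 2 / Fintype.card B + C / √(Fintype.card B) + 1 / 2 ^ a) *
          Nat.card (B × Word D m B → F) := by
  have hq2 : 2 ≤ Fintype.card F := Fintype.one_lt_card
  obtain ⟨c1, hc1⟩ := numbers (Fintype.card F) hq2 (δ / 2) (by linarith)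
  obtain ⟨A, hA⟩ : ∃ A : ℕ, A = ⌈4 / δ⌉₊ := ⟨_, rfl⟩
  obtain ⟨Z, hZ⟩ : ∃ Z : ℕ, Z = Fintype.card F + ⌈16 / δ⌉₊ + 2 * Fintype.card F + 32 := ⟨_, rfl⟩
  refine ⟨(4 * c1 + 2 * c1 + Z + 3) * (A + 1), fun r => ?_⟩
  obtain ⟨w, hw⟩ : ∃ w : ℕ, w = ⌈4 * (r : ℝ) / δ⌉₊ := ⟨_, rfl⟩
  have hwA : w + 1 ≤ (A + 1) * (r + 1) := by
    have h1 : w ≤ A * r := by
      rw [hw, hA]
      refine Nat.ceil_le.2 ?_
      push_cast
      have h2 := Nat.le_ceil (4 / δ)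
      have h3 : (0 : ℝ) ≤ r := Nat.cast_nonneg _
      calc 4 * (r : ℝ) / δ = 4 / δ * r := by ring
        _ ≤ _ := mul_le_mul_of_nonneg_right h2 h3
    nlinarith
  have hw' : 4 * (r : ℝ) / δ ≤ w := by
    rw [hw]
    exact Nat.le_ceil _
  obtain ⟨M, μ, m, d, D', C, hs1, hs2, hs3, hs4, hM, hm, hd, hμ, hdμ, hμM, hC, hnum0, hnum⟩ := hc1 w
  have hmz : NeZero m := ⟨by omega⟩
  have hq0 : (0 : ℝ) < (Fintype.card F : ℝ) := by exact_mod_cast (by omega : 0 < Fintype.card F)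
  obtain ⟨D, hD⟩ : ∃ D : ℕ, D = 9 * M ^ 2 * (w + 1) := ⟨_, rfl⟩
  have hM2 : 4 ≤ M ^ 2 := by nlinarith
  have hD20 : 20 ≤ D := by
    rw [hD]
    nlinarith
  have hDm : D ≤ D * m := Nat.le_mul_of_pos_right _ (by omega)
  refine ⟨C + D * m + 9 * (M ^ 2 * m) ^ 2 + Fintype.card F * 2 ^ (2 * w + 2) + ⌈16 / δ⌉₊ + 2 * Fintype.card F + 16,
    D, M ^ 2, m, w + 1, hmz, ?_, ?_, by omega, by omega, by omega, by omega, by omega, ?_, fun a ha => ⟨?_, ?_⟩⟩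
  · calc D * m ≤ 2 ^ (c1 * (w + 1)) * 2 ^ (c1 * (w + 1)) := by
          rw [hD]
          exact Nat.mul_le_mul hs2 hs3
      _ = 2 ^ (2 * c1 * (w + 1)) := by
          rw [← pow_add]
          congr 1
          ring
      _ ≤ _ := by
          refine Nat.pow_le_pow_right (by norm_num) ?_
          calc 2 * c1 * (w + 1) ≤ 2 * c1 * ((A + 1) * (r + 1)) := Nat.mul_le_mul_left _ hwA
            _ = 2 * c1 * (A + 1) * (r + 1) := by ring
            _ ≤ _ := Nat.mul_le_mul_right _ (Nat.mul_le_mul_right _ (by omega))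
  · obtain ⟨E, hE⟩ : ∃ E, E = 2 ^ (c1 * (w + 1)) := ⟨_, rfl⟩
    obtain ⟨Y, hY⟩ : ∃ Y, Y = 2 ^ ((4 * c1 + Z + 2) * (w + 1)) := ⟨_, rfl⟩
    rw [← hE] at hs1 hs2 hs3 hs4
    have hE1 : 1 ≤ E := by rw [hE]; exact Nat.one_le_two_pow
    have hEY : Y = E ^ 4 * (2 ^ (Z * (w + 1)) * 2 ^ (2 * w + 2)) := by
      rw [hY, hE, ← pow_mul, ← pow_add, ← pow_add]
      congr 1
      ring
    have hZ1 : Z ≤ 2 ^ (Z * (w + 1)) :=
      (le_two_pow Z).trans (Nat.pow_le_pow_right (by norm_num) (Nat.le_mul_of_pos_right _ (by omega)))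
    have h4 : 1 ≤ 2 ^ (2 * w + 2) := Nat.one_le_two_pow
    have hE4 : 1 ≤ E ^ 4 := Nat.one_le_pow _ _ hE1
    have hE2 : E ^ 2 ≤ E ^ 4 := Nat.pow_le_pow_right hE1 (by norm_num)
    have e1 : D * m ≤ E ^ 2 := by
      rw [hD, pow_two E]
      exact Nat.mul_le_mul hs2 hs3
    have e2 : (M ^ 2 * m) ^ 2 ≤ E ^ 4 := by
      calc (M ^ 2 * m) ^ 2 ≤ (E * E) ^ 2 := Nat.pow_le_pow_left (Nat.mul_le_mul hs1 hs3) 2
        _ = E ^ 4 := by ring
    have e3 : D * m + 9 * (M ^ 2 * m) ^ 2 + Fintype.card F * 2 ^ (2 * w + 2) + ⌈16 / δ⌉₊ + 2 * Fintype.card F + 16 ≤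
        Y := by
      calc D * m + 9 * (M ^ 2 * m) ^ 2 + Fintype.card F * 2 ^ (2 * w + 2) + ⌈16 / δ⌉₊ + 2 * Fintype.card F + 16
          ≤ E ^ 4 * 2 ^ (2 * w + 2) + 9 * (E ^ 4 * 2 ^ (2 * w + 2)) + Fintype.card F * (E ^ 4 * 2 ^ (2 * w + 2)) +
            (⌈16 / δ⌉₊ + 2 * Fintype.card F + 16) * (E ^ 4 * 2 ^ (2 * w + 2)) := by
            have f0 : 1 ≤ E ^ 4 * 2 ^ (2 * w + 2) := Nat.one_le_iff_ne_zero.2 (by positivity)
            have f1 : E ^ 4 ≤ E ^ 4 * 2 ^ (2 * w + 2) := Nat.le_mul_of_pos_right _ (by omega)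
            have f2 : 2 ^ (2 * w + 2) ≤ E ^ 4 * 2 ^ (2 * w + 2) := Nat.le_mul_of_pos_left _ (by omega)
            have f3 : Fintype.card F * 2 ^ (2 * w + 2) ≤ Fintype.card F * (E ^ 4 * 2 ^ (2 * w + 2)) :=
              Nat.mul_le_mul_left _ f2
            have f4 : ⌈16 / δ⌉₊ + 2 * Fintype.card F + 16 ≤
                (⌈16 / δ⌉₊ + 2 * Fintype.card F + 16) * (E ^ 4 * 2 ^ (2 * w + 2)) :=
              Nat.le_mul_of_pos_right _ (by omega)
            omega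
        _ = (26 + 3 * Fintype.card F + ⌈16 / δ⌉₊) * (E ^ 4 * 2 ^ (2 * w + 2)) := by ring
        _ ≤ 2 ^ (Z * (w + 1)) * (E ^ 4 * 2 ^ (2 * w + 2)) := Nat.mul_le_mul_right _ (by omega)
        _ = Y := by
            rw [hEY]
            ring
    have hY1 : 1 ≤ Y := by rw [hY]; exact Nat.one_le_two_pow
    have hEleY : E ≤ Y := by
      rw [hE, hY]
      exact Nat.pow_le_pow_right (by norm_num) (Nat.mul_le_mul_right _ (by omega))
    have hY2 : 2 * Y ≤ 2 ^ ((4 * c1 + 2 * c1 + Z + 3) * (A + 1) * (r + 1)) := by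
      rw [hY]
      calc 2 * 2 ^ ((4 * c1 + Z + 2) * (w + 1)) = 2 ^ ((4 * c1 + Z + 2) * (w + 1) + 1) := by
            rw [pow_succ, mul_comm]
        _ ≤ _ := by
            refine Nat.pow_le_pow_right (by norm_num) ?_
            have g1 : 1 ≤ (A + 1) * (r + 1) := Nat.one_le_iff_ne_zero.2 (by positivity)
            calc (4 * c1 + Z + 2) * (w + 1) + 1 ≤ (4 * c1 + Z + 2) * ((A + 1) * (r + 1)) + (A + 1) * (r + 1) :=
                  Nat.add_le_add (Nat.mul_le_mul_left _ hwA) g1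
              _ = (4 * c1 + Z + 3) * (A + 1) * (r + 1) := by ring
              _ ≤ _ := Nat.mul_le_mul_right _ (Nat.mul_le_mul_right _ (by omega))
    have hYY : Y ≤ 2 ^ Y := le_two_pow Y
    have h5 : C ≤ 2 ^ Y := hs4.trans (Nat.pow_le_pow_right (by norm_num) hEleY)
    have h6 : 2 ^ Y + 2 ^ Y ≤ 2 ^ (2 * Y) := by
      have h7 : 2 ^ Y + 2 ^ Y = 2 ^ (Y + 1) := by rw [pow_succ, mul_two]
      rw [h7]
      exact Nat.pow_le_pow_right (by norm_num) (by omega)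
    calc C + D * m + 9 * (M ^ 2 * m) ^ 2 + Fintype.card F * 2 ^ (2 * w + 2) + ⌈16 / δ⌉₊ + 2 * Fintype.card F + 16
        = C + (D * m + 9 * (M ^ 2 * m) ^ 2 + Fintype.card F * 2 ^ (2 * w + 2) + ⌈16 / δ⌉₊ + 2 * Fintype.card F + 16) := by
          ring
      _ ≤ 2 ^ Y + 2 ^ Y := Nat.add_le_add h5 (e3.trans hYY)
      _ ≤ 2 ^ (2 * Y) := h6
      _ ≤ _ := Nat.pow_le_pow_right (by norm_num) hY2
  · have h1 := Nat.le_ceil (16 / δ)
    have h2 : (⌈16 / δ⌉₊ : ℝ) ≤ ((C + D * m + 9 * (M ^ 2 * m) ^ 2 + Fintype.card F * 2 ^ (2 * w + 2) + ⌈16 / δ⌉₊ +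
      2 * Fintype.card F + 16 : ℕ) : ℝ) := by exact_mod_cast (by omega)
    exact h1.trans h2
  · rw [hD]
    exact most_perms M a (w + 1) (by omega) ha (by omega)
  intro g hg B _ _ _ x0 hx0 R hR hRa hCB S P hS hP θ hθ hθN
  set q := Fintype.card F with hqdef
  set k := Fintype.card B with hkdef
  set L := Fintype.card (Word D m B) with hLdef
  set N := Fintype.card (B × Word D m B) with hNdef
  obtain ⟨C', hC'⟩ : ∃ C' : ℕ, C' = C + D * m + 9 * (M ^ 2 * m) ^ 2 + q * 2 ^ (2 * w + 2) + ⌈16 / δ⌉₊ +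
    2 * q + 16 := ⟨_, rfl⟩
  rw [← hC'] at hCB ⊢
  have c0 : Fin D × Fin m := (⟨0, by omega⟩, 0)
  have hkL : k ≤ L := by
    rw [hLdef, Fintype.card_fun]
    refine Nat.le_self_pow ?_ _
    have : Nonempty (Fin D × Fin m) := ⟨c0⟩
    exact Fintype.card_ne_zero
  have hLN : L ≤ N := by
    rw [hNdef, Fintype.card_prod]
    exact Nat.le_mul_of_pos_left _ (by omega)
  have h16 : 16 / δ ≤ (k : ℝ) := (Nat.le_ceil _).trans (by exact_mod_cast (by omega : ⌈16 / δ⌉₊ ≤ k))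
  have hkL' : (k : ℝ) ≤ L := by exact_mod_cast hkL
  have hLN' : (L : ℝ) ≤ N := by exact_mod_cast hLN
  have hk0 : (0 : ℝ) < k := by exact_mod_cast (by omega : 0 < k)
  have hL0 : (0 : ℝ) < L := by linarith
  have hN0 : (0 : ℝ) < N := by linarith
  obtain ⟨h, hh2, hhL, hLq, hhr, hhr2⟩ := exists_h q hq2 (δ / 2) (by linarith) (by linarith) L (by omega)
    (by
      have : 8 / (δ / 2) = 16 / δ := by field_simp; norm_num
      rw [this]
      linarith) (by omega)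
  obtain ⟨e, T, hTe, hTN, hK, hTr⟩ := exists_e_T q hq2 δ hδ N θ r w (by linarith) hθ hθN hw'
  obtain ⟨η, hη⟩ : ∃ η : ℝ, η = 1 + (1 - (T : ℝ) / N - ((h + 1 : ℕ) : ℝ) / L) / 2 := ⟨_, rfl⟩
  have hη1 : 1 + δ / 2 / 8 ≤ η := by
    rw [hη]
    linarith
  have hhr' : 1 / (q : ℝ) + δ / 2 / 4 ≤ ((h + 1 : ℕ) : ℝ) / L := by
    refine hhr.trans (div_le_div_of_nonneg_right ?_ hL0.le)
    exact_mod_cast Nat.le_succ h
  obtain ⟨n1, n2⟩ := hnum a ha (((h + 1 : ℕ) : ℝ) / L) ((h : ℝ) / L) η hhr' hhr hη1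
  have n3 := n2 (k : ℝ) (by exact_mod_cast (by omega : C ≤ k))
  rw [← hD] at n1 n3
  obtain ⟨n, hn⟩ : ∃ n : ℕ, n = M ^ 2 * a := ⟨_, rfl⟩
  have hM4 : 4 * a ≤ M ^ 2 * a := Nat.mul_le_mul_right _ hM2
  have hr0 : (0 : ℝ) ≤ (h : ℝ) / L := by positivity
  have hE0 : 0 ≤ errB (M ^ 2 * a) d w ((q ^ (2 * D')) ^ a) q ((h : ℝ) / L)
      ((k : ℝ) ^ (-((a * m : ℕ) : ℝ) / 2 ^ (2 * w + 3))) := by
    have := Real.rpow_nonneg hk0.le (-((a * m : ℕ) : ℝ) / 2 ^ (2 * w + 3))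
    unfold errB
    positivity
  have key := Pool.Agent.Helper74.RQ.main_bound_of (d := d) P g x0 hx0 c0 (h + 1) T a R θ e r (M * a) (M ^ 2 * a / 2)
    (w := w) hg (by omega) hP hhL hLq hθN hTe hK hTN η hη (by linarith)
    (Nat.mul_le_mul_right _ hM) (by omega) a hE0 ?_
  · refine key.trans (mul_le_mul_of_nonneg_right ?_ (Nat.cast_nonneg _))
    have hS' : (S : ℝ) ≤ 2 ^ a := by exact_mod_cast hS
    have hR' : (R : ℝ) ≤ 2 ^ a := by exact_mod_cast hRa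
    have e1 : ((R : ℝ) + 1) * ((M ^ 2 * a : ℕ) * m) ≤ 2 * (M ^ 2 * m : ℕ) * (a * R) := by
      have hR1 : (1 : ℝ) ≤ R := by exact_mod_cast hR
      have : (0 : ℝ) ≤ ((M ^ 2 * a : ℕ) * m : ℝ) := by positivity
      push_cast
      push_cast at this
      nlinarith
    have t1 : (((R : ℝ) + 1) * ((M ^ 2 * a : ℕ) * m)) ^ 2 / k ≤ C' * (a * R) ^ 2 / k := by
      refine div_le_div_of_nonneg_right ?_ hk0.le
      calc (((R : ℝ) + 1) * ((M ^ 2 * a : ℕ) * m)) ^ 2 ≤ (2 * (M ^ 2 * m : ℕ) * (a * R)) ^ 2 :=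
            pow_le_pow_left₀ (by positivity) e1 _
        _ = ((4 * (M ^ 2 * m) ^ 2 : ℕ) : ℝ) * (a * R) ^ 2 := by
            push_cast
            ring
        _ ≤ C' * (a * R) ^ 2 := by
            refine mul_le_mul_of_nonneg_right ?_ (by positivity)
            have : 4 * (M ^ 2 * m) ^ 2 ≤ 9 * (M ^ 2 * m) ^ 2 := Nat.mul_le_mul_right _ (by norm_num)
            exact_mod_cast (by omega : 4 * (M ^ 2 * m) ^ 2 ≤ C')
    have t3 : (q : ℝ) * 2 ^ (2 * w + 2) / √k ≤ C' / √k := by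
      refine div_le_div_of_nonneg_right ?_ (Real.sqrt_nonneg _)
      exact_mod_cast (by omega : q * 2 ^ (2 * w + 2) ≤ C')
    have herr0 : 0 ≤ err (M ^ 2 * a) m d a (M * a) (M ^ 2 * a / 2) q (((h + 1 : ℕ) : ℝ) / L) η := by
      have : 0 ≤ η := by linarith
      unfold err
      positivity
    have t2 : (R : ℝ) * S ^ 3 * 2 ^ (M ^ 2 * a) * ((D : ℝ) * m) ^ (2 * (M ^ 2 * a)) *
        err (M ^ 2 * a) m d a (M * a) (M ^ 2 * a / 2) q (((h + 1 : ℕ) : ℝ) / L) η ≤ 1 / 2 ^ (a + 1) := by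
      refine le_trans ?_ n1
      refine mul_le_mul_of_nonneg_right ?_ herr0
      refine mul_le_mul_of_nonneg_right ?_ (by positivity)
      refine mul_le_mul_of_nonneg_right ?_ (by positivity)
      calc (R : ℝ) * S ^ 3 ≤ 2 ^ a * (2 ^ a) ^ 3 := by gcongr
        _ = (2 ^ a) ^ 4 := by ring
    have t4 : (S : ℝ) ^ (w + 2) * 2 ^ (M ^ 2 * a) * ((D : ℝ) * m) ^ ((M ^ 2 * a) * (w + 1)) *
        errB (M ^ 2 * a) d w ((q ^ (2 * D')) ^ a) q ((h : ℝ) / L)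
          ((k : ℝ) ^ (-((a * m : ℕ) : ℝ) / 2 ^ (2 * w + 3))) ≤ 1 / 2 ^ (a + 1) := by
      refine le_trans ?_ n3
      refine mul_le_mul_of_nonneg_right ?_ hE0
      refine mul_le_mul_of_nonneg_right ?_ (by positivity)
      refine mul_le_mul_of_nonneg_right ?_ (by positivity)
      gcongr
    have t5 : (1 : ℝ) / 2 ^ (a + 1) + 1 / 2 ^ (a + 1) = 1 / 2 ^ a := by
      rw [pow_succ]
      field_simp
      norm_num
    linarith
  · intro σ V τ y γ hV hs hcb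
    refine Pool.Agent.Helper98.NK.type_bound P g x0 R σ V τ y γ hs h μ ((q ^ (2 * D')) ^ a) a ?_
      (Real.rpow_nonneg hk0.le _) hcb
    refine par_of hnum0 hμ hd hdμ ha ?_ hh2 (by omega) (by omega) hhr
    have h1 : 4 * μ ^ (w + 1) * a ≤ 3 * M ^ 2 * a := Nat.mul_le_mul_right _ hμM
    have h2 : 4 * (a * μ ^ (w + 1)) ≤ 4 * V.card := by
      calc 4 * (a * μ ^ (w + 1)) = 4 * μ ^ (w + 1) * a := by ring
        _ ≤ 3 * M ^ 2 * a := h1
        _ = 3 * (M ^ 2 * a) := by ring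
        _ ≤ _ := hV
    omega

end

end Pool.Agent.Helper6.RQ
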